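import Pool.Agent.Y921.DB.Blk
import Pool.Agent.Y921.DB.Ren

/-!
# The degree-`δ` statement for almost all integral points, in ARBITRARY families over number fields

Let `Z` be a fundamental matrix, regular at `z = 0`, of a system `f Z' = Z A` over `L(z)`, `L` a number field, such that
the entries of `Z` and of `Z⁻¹` are G-functions, for example the matrix of the Gauss-Manin connection of `h^j` of ANY
family of smooth projective varieties over the `z`-line, defined over `L`, with good fibre at `z = 0`. Let `Ω` be the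
matrix of the periods of the fibre at `z = 0` (any complex matrix; it has to be neither square nor invertible). Then
`Ω Z(z)` is the matrix of the periods of the fibre at `z`.

It is known that for the hyperelliptic families `y² = g(x) (x - t)` over `ℚ` the degree-`δ` statement holds for the
integers `t` in a set of natural density one. Here we consider `p` arbitrary families, different or equal, and the
product family over the `p`-dimensional base. For every number field `K` and every `δ` the degree-`δ` statement over `K`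
holds at `(1 / m_1, …, 1 / m_p)` for all but `C T ^ (p - c)` of the `p`-tuples of integers up to `T`; and for `p = 1` it
holds for all but at most `M` integers `m` in every short interval `[N, N + N ^ c]`. The degree-`δ` statement is meant in
the sense of the problem: every relation of degree at most `δ` over `K` between the periods of the fibre at `s` is the value
at `s` of a relation over `K[z_1, …, z_p]` which holds identically on the graph of the period map; so it vanishes on
the fibre over `s` of the Zariski closure of the graph over the algebraic numbers.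
-/

set_option autoImplicit false

open PowerSeries

namespace Pool.Agent.Results.MP_290158_ag.AllFamilies

/-- The conditions on the coefficients in the definition of a G-function over the number field `L`: geometric growth of
all conjugates of the coefficients and of their common denominators. -/
def GCond {L : Type} [Field L] (g : L⟦X⟧) : Prop :=
  ∃ A : ℝ, (∀ (φ : L →+* ℂ) (m : ℕ), ‖φ (coeff m g)‖ ≤ A ^ (m + 1)) ∧
    ∀ m, ∃ d : ℕ, 0 < d ∧ (d : ℝ) ≤ A ^ (m + 1) ∧ ∀ j ≤ m, IsIntegral ℤ ((d : L) * coeff j g)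

/-- A family over the `z`-line, defined over the number field `L`, with good fibre at `z = 0`: a system `f Z' = Z A` over
`L(z)`, regular at `z = 0`, its fundamental matrix `Z`, whose entries and those of its inverse `W` are G-functions, and the
matrix `Ω` of the periods of the fibre at `z = 0` over `σ` cycles. -/
structure Family (L : Type) [Field L] where
  /-- the number of the forms -/
  n : ℕ
  /-- the denominator of the connection -/
  f : Polynomial L
  /-- the connection -/
  A : Matrix (Fin n) (Fin n) (Polynomial L)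
  /-- the fundamental matrix -/
  Z : Matrix (Fin n) (Fin n) L⟦X⟧
  /-- its inverse -/
  W : Matrix (Fin n) (Fin n) L⟦X⟧
  regular : f.coeff 0 ≠ 0
  system : ∀ i j, (f : L⟦X⟧) * PowerSeries.derivative L (Z i j) = ∑ k, Z i k * (A k j : L⟦X⟧)
  inverse : W * Z = 1
  gZ : ∀ i j, GCond (Z i j)
  gW : ∀ i j, GCond (W i j)
  /-- the number of the cycles -/
  σ : ℕ
  /-- the periods at `z = 0` -/
  Ω : Matrix (Fin σ) (Fin n) ℂ

variable {L : Type} [Field L] [Algebra L ℂ]

/-- the entries of the matrix `Ω Z(z)` of the periods of the fibre at `z` -/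
noncomputable def Family.periods (F : Family L) (z : ℂ) (v : Fin F.σ × Fin F.n) : ℂ :=
  ∑ a, F.Ω v.1 a * ∑' m : ℕ, algebraMap L ℂ (coeff m (F.Z a v.2)) * z ^ m

/-- the periods of the product of the fibres of `p` families at `z_1, …, z_p` -/
noncomputable def periods {p : ℕ} (F : Fin p → Family L) (z : Fin p → ℂ) (v : Σ l, Fin (F l).σ × Fin (F l).n) : ℂ :=
  (F v.1).periods (z v.1) v.2

/-- The degree `δ` statement over `K` at the point `s` of affine `p`-space, for the functions `P`: every polynomial `R` of
total degree at most `δ` with coefficients in `K` which vanishes at `P(s)` is the value at `z = s` of a polynomial `G` over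
`K[z_1, …, z_p]` of total degree at most `δ` with `G(z, P(z)) = 0` for all `z` in the polydisc of radius `r`. -/
def DegreeStatement (K : Type) [Field K] [Algebra K ℂ] {p : ℕ} {ι : Type} (P : (Fin p → ℂ) → ι → ℂ) (r : ℝ) (δ : ℕ)
    (s : Fin p → K) : Prop :=
  ∀ R : MvPolynomial ι K, R.totalDegree ≤ δ → MvPolynomial.aeval (P fun l => algebraMap K ℂ (s l)) R = 0 →
    ∃ G : MvPolynomial ι (MvPolynomial (Fin p) K), G.totalDegree ≤ δ ∧ G.map (MvPolynomial.eval s) = R ∧
      ∀ z : Fin p → ℂ, (∀ l, ‖z l‖ < r) →
        G.eval₂ (MvPolynomial.aeval z : MvPolynomial (Fin p) K →ₐ[K] ℂ).toRingHom (P z) = 0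

/-- the point `(1 / m_1, …, 1 / m_p)` is in the polydisc of radius `r`, and the degree `δ` statement over `K` holds there
for the periods of the product family -/
def Good (K : Type) [Field K] [Algebra K ℂ] {p : ℕ} (F : Fin p → Family L) (r : ℝ) (δ : ℕ) (m : Fin p → ℕ) : Prop :=
  (∀ l, 1 / (m l : ℝ) < r) ∧ DegreeStatement K (periods F) r δ fun l => 1 / (m l : K)

omit [Algebra L ℂ] in
open Pool.Agent.Y921.DB in
theorem Family.datL [NumberField L] (F : Family L) : DatL F.f (fun i j => F.A i j) (fun i j => F.Z i j)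
    (fun i j => F.W i j) :=
  ⟨F.regular, F.system, fun i j => by
    have h1 : (F.W * F.Z) i j = (1 : Matrix (Fin F.n) (Fin F.n) L⟦X⟧) i j := by rw [F.inverse]
    rw [Matrix.mul_apply] at h1
    rw [h1, Matrix.one_apply], F.gZ, F.gW⟩

open Pool.Agent.Y921.DB in
/-- the periods are combinations of the entries of the direct sum -/
theorem rep [NumberField L] {p : ℕ} (F : Fin p → Family L) : ∃ (M : ℕ) (f : Polynomial L)
    (A : Fin M → Fin M → Polynomial L) (Z W : Fin M → Fin M → L⟦X⟧)
    (lam : Fin p → (Σ l, Fin (F l).σ × Fin (F l).n) → Option (Fin M × Fin M) → ℂ),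
    DatL f A Z W ∧ (∀ v l, v.1 ≠ l → ∀ q, lam l v q = 0) ∧
      ∀ z : Fin p → ℂ, ∀ v, periods F z v = ptL lam Z z (v.1, v) := by
  classical
  obtain ⟨A', hA'⟩ := DatL.block (S := Fin p) (n := fun l => (F l).n) (f := fun l => (F l).f)
    (fun l => (F l).datL)
  refine ⟨sz fun l => (F l).n, ∏ l, (F l).f, A', blk (n := fun l => (F l).n) fun l i j => (F l).Z i j,
    blk (n := fun l => (F l).n) fun l i j => (F l).W i j, fun l v q => if v.1 = l then
      ∑ a, if q = some ((sx fun l => (F l).n).symm ⟨v.1, a⟩, (sx fun l => (F l).n).symm ⟨v.1, v.2.2⟩) then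
        (F v.1).Ω v.2.1 a else 0 else 0, hA', fun v l hvl q => if_neg hvl, fun z v => ?_⟩
  unfold periods Family.periods ptL
  simp only [if_true]
  simp only [Finset.sum_mul]
  rw [Finset.sum_comm]
  refine Finset.sum_congr rfl fun a _ => ?_
  rw [Finset.sum_eq_single (some ((sx fun l => (F l).n).symm ⟨v.1, a⟩, (sx fun l => (F l).n).symm ⟨v.1, v.2.2⟩))]
  · rw [if_pos rfl]
    have h1 := blk_same (n := fun l => (F l).n) (fun l i j => (F l).Z i j) v.1 a v.2.2
    simp only [Option.elim_some]
    rw [h1]
    rfl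
  · intro q _ hq
    rw [if_neg hq, zero_mul]
  · intro hh
    exact absurd (Finset.mem_univ _) hh

open Pool.Agent.Y921.DB in
theorem good_of [NumberField L] {p : ℕ} (F : Fin p → Family L) (K : Type) [Field K] [Algebra K ℂ] {M : ℕ}
    {Z : Fin M → Fin M → L⟦X⟧} {lam : Fin p → (Σ l, Fin (F l).σ × Fin (F l).n) → Option (Fin M × Fin M) → ℂ}
    (h : ∀ z : Fin p → ℂ, ∀ v, periods F z v = ptL lam Z z (v.1, v)) {r : ℝ} {δ : ℕ} {m : Fin p → ℕ}
    (h0 : ∀ v l, v.1 ≠ l → ∀ q, lam l v q = 0)
    (hm : ∀ l, 1 / (m l : ℝ) < r) (hs : SpecK K (ptL lam Z) r δ m) : Good K F r δ m := by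
  have h1 : SpecK K (fun z v => ptL lam Z z (v.1, v)) r δ m := by
    refine SpecK.rename (g := fun v : (Σ l, Fin (F l).σ × Fin (F l).n) => (v.1, v))
      (fun v v' hv => (Prod.ext_iff.1 hv).2) (fun z t => rfl) (fun z t' ht' => ?_) hs
    unfold ptL
    refine Finset.sum_eq_zero fun q _ => ?_
    rw [h0 t'.2 t'.1 (fun hh => ht' ⟨t'.2, Prod.ext hh rfl⟩), zero_mul]
  have h2 : SpecK K (periods F) r δ m := SpecK.congr (fun z _ => funext fun v => h z v) hm h1
  refine ⟨hm, fun R hR hR0 => ?_⟩
  have h7 : (fun l => algebraMap K ℂ (1 / (m l : K))) = fun l => 1 / (m l : ℂ) := by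
    funext l
    simp
  rw [h7] at hR0
  obtain ⟨G, hG1, hG2, hG3⟩ := h2 R hR hR0
  exact ⟨G, hG1, hG3, hG2⟩

open Classical in
/-- Let `F_1, …, F_p` be arbitrary families over the number field `L`, `K` a number field and `δ` a natural number.
(1) There are `r > 0`, `c > 0`, `C` such that for all `T ≥ 1` all but `C T ^ (p - c)` of the `p`-tuples of integers
`2 ≤ m_l ≤ T` are good: the degree `δ` statement over `K` holds at `(1 / m_1, …, 1 / m_p)` for the product family.
(2) If `p = 1` then there are `r > 0`, `c > 0`, `M` such that for all `N ≥ 1` all integers `N ≤ m ≤ N + N ^ c` but at most `M`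
are good. -/
theorem result (L : Type) [Field L] [NumberField L] [Algebra L ℂ] {p : ℕ} (F : Fin p → Family L)
    (K : Type) [Field K] [NumberField K] [Algebra K ℂ] (δ : ℕ) :
    (∃ r : ℝ, 0 < r ∧ ∃ c C : ℝ, 0 < c ∧ ∀ T : ℕ, 1 ≤ T →
      (((Fintype.piFinset fun _ : Fin p => Finset.Icc 2 T).filter fun m => ¬ Good K F r δ m).card : ℝ) ≤
        C * (T : ℝ) ^ ((p : ℝ) - c)) ∧
    (p = 1 → ∃ r : ℝ, 0 < r ∧ ∃ c : ℝ, 0 < c ∧ ∃ M : ℕ, ∀ N : ℕ, 1 ≤ N → ∃ S : Finset ℕ, S.card ≤ M ∧
      ∀ m : ℕ, N ≤ m → (m : ℝ) ≤ N + (N : ℝ) ^ c → m ∉ S → Good K F r δ fun _ => m) := by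
  obtain ⟨M, f, A, Z, W, lam, hD, h0, hrep⟩ := rep F
  constructor
  · obtain ⟨r, hr, -, c, hc, C, hC⟩ := Pool.Agent.Y921.DB.specL_count hD lam K δ one_pos
    refine ⟨r, hr, c, C, hc, fun T hT => le_trans ?_ (hC T hT)⟩
    refine Nat.cast_le.2 (Finset.card_le_card fun m hm => ?_)
    obtain ⟨hm1, hm2⟩ := Finset.mem_filter.1 hm
    exact Finset.mem_filter.2 ⟨hm1, fun hh => hm2 (good_of F K hrep h0 hh.1 hh.2)⟩
  · rintro rfl
    obtain ⟨r, hr, -, c, hc, M', hM⟩ := Pool.Agent.Y921.DB.specL_win hD lam K δ one_pos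
    refine ⟨r, hr, c, hc, M', fun N hN => ?_⟩
    obtain ⟨S, hS, hS'⟩ := hM N hN
    refine ⟨S, hS, fun m h1 h2 h3 => ?_⟩
    obtain ⟨h4, h5⟩ := hS' m h1 h2 h3
    exact good_of F K hrep h0 (fun _ => h4) h5

end Pool.Agent.Results.MP_290158_ag.AllFamilies
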