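import Pool.Agent.L5helper21.DT.Main
import Pool.Agent.L5helper21.DT.Base

/-!
# The degree statement for arbitrary families, at almost all algebraic points of every degree, and over arbitrary bases

Let `S` be an open subvariety of the affine line, `V` a connected open subset of `S(ℂ)` (for example `S(ℂ)` without
finitely many cuts), and `P = (P_v)` a branch on `V` of the period matrix of a family of smooth projective varieties over `S`,
or of several such families. We suppose that `ℂ(x)` is algebraically closed in the field `ℂ(x, P)` (`Connected`);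
as this is the function field of the generic period torsor, this says that the Zariski closure of the monodromy group
is connected, which holds after a finite etale covering of `S`. (The degree statement is false without such a
condition, see `DisconnectedMonodromy` on this page.) Nothing else is supposed; the family does not have to be
defined over a number field, and the functions need not satisfy differential equations with special properties.

(1) For every degree `g` the degree statement holds at 100 percent of the algebraic points of degree `g`: for almost all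
integral polynomials `a` of degree `g` with coefficients at most `T`, for all roots `x` of `a` at distance at
least `1 / ω(T)` from the complement of `V`, every relation `R` of degree at most `ω(T)` between the numbers `P_v(x)`,
with coefficients in any number field of degree at most `ω(T)` and of height at most `T ^ ω(T)`, is the value at `x` of a relation
`G(z, P(z)) = 0` with algebraic coefficients which holds identically; so `R` vanishes on the fibre at `x` of
the Zariski closure over the algebraic numbers of the graph of the period map. Here `ω(T) → ∞`. The same holds for the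
relations between the periods `P_v(x)` of the fibres at several, or all, of these conjugate roots `x`, which is
the degree statement for the product of copies of the family at the point `(x)_x` of the product of copies of `S`.

(2) The base can be arbitrary. `x` are `d` coordinates on the base `S` of dimension `d`, such that `S → 𝔸 ^ d`, `s ↦ x(s)` is generically finite,
`U` is a connected open subset of `ℂ ^ d` over which there is an analytic section of `S(ℂ) → ℂ ^ d`, and `y_j(x)` are the
other coordinates of the section. The rational points `x` of height at most `T` over which the degree statement fails at the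
point `s = (y(x), x)`, for relations over a number field `F` of degree at most `ω(T)` that contains `y(x)`, are
on few hypersurfaces of small degree.

The proof. The library `Pool.Agent.X255` gives, for almost all these points `s`, for each relation `R` a functional
relation over `ℂ` with the value `R` at `s`. The module of the functional relations of bounded degree is the kernel of a matrix
`B` over `ℂ[x]`; write `B = ∑ ε_b B_b`, where the `ε_b` are linearly independent over the algebraic numbers and the `B_b`
have algebraic coefficients. For algebraic `s` and `R` one has `B(s) R = 0` if and only if `B_b(s) R = 0` for all `b`.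
By generalised inverses of matrices over polynomial rings there is a polynomial `e` such that all solutions at the points `s` with
`e(s) ≠ 0` are values of solutions with algebraic coefficients (`Pool.Agent.L5helper21.DT.descent`). The polynomials with
roots `x` such that `e(x) = 0` for the tuple of the roots are on a hypersurface, too.
-/

set_option autoImplicit false

open Polynomial Filter Topology NumberField

namespace Pool.Agent.Results.MP_290158_ag.AlmostAllAlgebraicPoints

/-- The field of the algebraic numbers in `ℂ`. -/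
abbrev QB : Type := algebraicClosure ℚ ℂ

/-- The value at `y` of the polynomial with the coefficients `c l`, of degree at most `k` in each variable. -/
noncomputable def value {A : Type} [Fintype A] [DecidableEq A] {k : ℕ} (c : (A → Fin (k + 1)) → ℂ) (y : A → ℂ) : ℂ :=
  ∑ l, c l * ∏ a, y a ^ (l a : ℕ)

section line

variable {ι : Type}

/-- The value at `x` of a polynomial in `x` and the `P_v`. -/
noncomputable def val (P : ι → ℂ → ℂ) (x : ℂ) (p : MvPolynomial ι ℂ[X]) : ℂ :=
  MvPolynomial.eval₂ (Polynomial.evalRingHom x) (fun v => P v x) p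

/-- `ℂ(x)` is algebraically closed in `ℂ(x, P)`: an analytic function on a nonempty open subset of `V` which is a quotient of
two polynomials in `x` and the `P_v`, and is algebraic over `ℂ(x)`, is a rational function. -/
def Connected (V : Set ℂ) (P : ι → ℂ → ℂ) : Prop :=
  ∀ (W : Set ℂ) (h : ℂ → ℂ) (A B : MvPolynomial ι ℂ[X]) (R : ℂ[X][X]), IsOpen W → W.Nonempty → W ⊆ V →
    AnalyticOnNhd ℂ h W → R ≠ 0 → (∀ x ∈ W, val P x B ≠ 0) → (∀ x ∈ W, val P x B * h x = val P x A) →
    (∀ x ∈ W, (R.map (Polynomial.evalRingHom x)).eval (h x) = 0) →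
    ∃ p q : ℂ[X], q ≠ 0 ∧ ∀ x ∈ W, q.eval x * h x = p.eval x

variable [Fintype ι] [DecidableEq ι]

/-- **The degree statement** at the point `(x)_{x ∈ Q}` for the product over `Q` of copies of the family: each relation
between the numbers `P_v(x)`, `x ∈ Q`, of degree at most `k` in each of them, with coefficients in the integers of a
number field `F` of degree at most `k` all of whose conjugates are at most `H`, is the value at `(x)_{x ∈ Q}` of
a relation with coefficients in `QB[z_x, x ∈ Q]` between the functions `P_v(z_x)`, which holds for all `z ∈ V ^ Q`. -/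
def DegreeStatement (V : Set ℂ) (P : ι → ℂ → ℂ) (k : ℕ) (H : ℝ) (Q : Finset ℂ) : Prop :=
  ∀ (F : Type) [Field F] [NumberField F], Module.finrank ℚ F ≤ k → ∀ (io : F →+* ℂ)
    (c : ({x // x ∈ Q} × ι → Fin (k + 1)) → 𝓞 F), (∀ l (φ : F →+* ℂ), ‖φ (c l : F)‖ ≤ H) →
    value (fun l => io (c l : F)) (fun q => P q.2 q.1) = 0 →
    ∃ G : ({x // x ∈ Q} × ι → Fin (k + 1)) → MvPolynomial {x // x ∈ Q} QB,
      (∀ l, MvPolynomial.aeval (fun x : {x // x ∈ Q} => (x : ℂ)) (G l) = io (c l : F)) ∧
      ∀ z : {x // x ∈ Q} → ℂ, (∀ x, z x ∈ V) →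
        value (fun l => MvPolynomial.aeval z (G l)) (fun q => P q.2 (z q.1)) = 0

/-- The integral vectors `a = (a_0, …, a_g)` with `|a_i| ≤ T`. -/
noncomputable def box (g T : ℕ) : Finset (Fin (g + 1) → ℤ) := Fintype.piFinset fun _ => Finset.Icc (-(T : ℤ)) (T : ℤ)

/-- The polynomial `a_0 + a_1 x + … + a_g x^g`. -/
noncomputable def poly {g : ℕ} (a : Fin (g + 1) → ℤ) : ℂ[X] := ∑ i, C (a i : ℂ) * X ^ (i : ℕ)

/-- `a` has degree `g` and simple roots, and the degree statement holds for every set `Q` of roots whose open discs of radius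
`η` are in `V`. -/
def Good {g : ℕ} (V : Set ℂ) (P : ι → ℂ → ℂ) (k : ℕ) (H η : ℝ) (a : Fin (g + 1) → ℤ) : Prop :=
  a (Fin.last g) ≠ 0 ∧ (poly a).Separable ∧
    ∀ Q : Finset ℂ, (∀ x ∈ Q, (poly a).eval x = 0 ∧ Metric.ball x η ⊆ V) → DegreeStatement V P k H Q

end line

section base

variable {X Y ι : Type} [Fintype X]

/-- The coordinates `(y(x), x)` of the point of the base over `x`. -/
def point (y : Y → (X → ℂ) → ℂ) (x : X → ℂ) : Y ⊕ X → ℂ := Sum.elim (fun j => y j x) x

/-- The value at `x` of a polynomial in the functions `f` with coefficients in `ℂ[x]`. -/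
noncomputable def valM {τ : Type} (f : τ → (X → ℂ) → ℂ) (x : X → ℂ) (p : MvPolynomial τ (MvPolynomial X ℂ)) : ℂ :=
  MvPolynomial.eval₂ (MvPolynomial.eval x) (fun i => f i x) p

/-- The functions `y_j` are algebraic over `ℂ(x)`. -/
def Algebraic (U : Set (X → ℂ)) (y : Y → (X → ℂ) → ℂ) : Prop :=
  ∀ j, ∃ R : (MvPolynomial X ℂ)[X], R ≠ 0 ∧ ∀ x ∈ U, (R.map (MvPolynomial.eval x)).eval (y j x) = 0

/-- `ℂ(x, y)` is algebraically closed in `ℂ(x, y, P)`. -/
def ConnectedM (U : Set (X → ℂ)) (y : Y → (X → ℂ) → ℂ) (P : ι → (X → ℂ) → ℂ) : Prop :=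
  ∀ (W : Set (X → ℂ)) (h : (X → ℂ) → ℂ) (A B : MvPolynomial (ι ⊕ Y) (MvPolynomial X ℂ)) (R : (MvPolynomial X ℂ)[X]),
    IsOpen W → W.Nonempty → W ⊆ U → AnalyticOnNhd ℂ h W → R ≠ 0 → (∀ x ∈ W, valM (Sum.elim P y) x B ≠ 0) →
    (∀ x ∈ W, valM (Sum.elim P y) x B * h x = valM (Sum.elim P y) x A) →
    (∀ x ∈ W, (R.map (MvPolynomial.eval x)).eval (h x) = 0) →
    ∃ p q : MvPolynomial Y (MvPolynomial X ℂ), (∃ x ∈ U, valM y x q ≠ 0) ∧ ∀ x ∈ W, valM y x q * h x = valM y x p

variable [Fintype ι] [DecidableEq ι]

/-- The degree statement over `F` at the point over `x`. -/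
def DegreeAt (k : ℕ) (H : ℝ) (U : Set (X → ℂ)) (y : Y → (X → ℂ) → ℂ) (P : ι → (X → ℂ) → ℂ) (F : Type) [Field F]
    (io : F →+* ℂ) (x : X → ℂ) : Prop :=
  ∀ c : (ι → Fin (k + 1)) → 𝓞 F, (∀ l (φ : F →+* ℂ), ‖φ (c l : F)‖ ≤ H) →
    value (fun l => io (c l : F)) (fun v => P v x) = 0 →
    ∃ G : (ι → Fin (k + 1)) → MvPolynomial (Y ⊕ X) QB, (∀ l, MvPolynomial.aeval (point y x) (G l) = io (c l : F)) ∧
      ∀ z ∈ U, value (fun l => MvPolynomial.aeval (point y z) (G l)) (fun v => P v z) = 0

/-- `x` is a quotient of two integers of `F` all of whose conjugates are at most `T`. -/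
def Height {F : Type} [Field F] [NumberField F] (T : ℝ) (x : F) : Prop :=
  ∃ a b : 𝓞 F, b ≠ 0 ∧ house (a : F) ≤ T ∧ house (b : F) ≤ T ∧ x = a / b

/-- The rational points `x` of height at most `T` and norm at most `k`, whose open ball of radius `1 / k` is in `U`, such that for
some number field `F` of degree at most `k` which contains the numbers `y_j(x)`, of height at most `T ^ k`, the
degree statement fails over `F` at the point over `x`. -/
def Exceptional (k : ℕ) (U : Set (X → ℂ)) (y : Y → (X → ℂ) → ℂ) (P : ι → (X → ℂ) → ℂ) (T : ℝ) : Set (X → ℚ) :=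
  {x | (∀ i, Height T (x i)) ∧ (‖fun i => (x i : ℂ)‖ ≤ k ∧ Metric.ball (fun i => (x i : ℂ)) (k : ℝ)⁻¹ ⊆ U) ∧
    ∃ (F : Type) (_ : Field F) (_ : NumberField F) (io : F →+* ℂ), Module.finrank ℚ F ≤ k ∧
      (∀ j, ∃ z : F, Height (T ^ k) z ∧ io z = y j fun i => (x i : ℂ)) ∧
      ¬ DegreeAt k (T ^ k) U y P F io fun i => (x i : ℂ)}

/-- The set `E` lies on at most `m` hypersurfaces of degree at most `D`. -/
def Covered (D m : ℕ) (E : Set (X → ℚ)) : Prop :=
  ∃ Φ : Finset (MvPolynomial X ℂ), Φ.card ≤ m ∧ (∀ p ∈ Φ, p ≠ 0 ∧ p.totalDegree ≤ D) ∧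
    ∀ x ∈ E, ∃ p ∈ Φ, MvPolynomial.eval (fun i => (x i : ℂ)) p = 0

end base

open Pool.Agent in
open scoped Classical in
/-- **The degree statement for arbitrary families at almost all algebraic points.** (1) Families over open subsets of the
line, with `Connected V P`, and their algebraic points of degree `g`. (2) Families over arbitrary bases, with
`ConnectedM U y P`, at the points over the rational points of affine space. -/
theorem result {ι : Type} [Fintype ι] [DecidableEq ι] :
    (∀ (V : Set ℂ) (P : ι → ℂ → ℂ), IsOpen V → IsPreconnected V → (∀ v, AnalyticOnNhd ℂ (P v) V) → Connected V P →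
      ∀ g : ℕ, 0 < g → ∃ ω : ℕ → ℕ, Tendsto ω atTop atTop ∧ Monotone ω ∧ ∀ T : ℕ,
        ω T * ((box g T).filter fun a => ¬ Good V P (ω T) ((T : ℝ) ^ ω T) (1 / (ω T : ℝ)) a).card ≤ (box g T).card) ∧
    ∀ (X Y : Type) [Fintype X] [DecidableEq X] [Nonempty X] [Fintype Y] [DecidableEq Y] (U : Set (X → ℂ))
      (y : Y → (X → ℂ) → ℂ) (P : ι → (X → ℂ) → ℂ), IsOpen U → IsPreconnected U → U.Nonempty →
      (∀ j, AnalyticOnNhd ℂ (y j) U) → (∀ v, AnalyticOnNhd ℂ (P v) U) → Algebraic U y → ConnectedM U y P →
      ∃ (ω : ℝ → ℕ) (T₀ : ℝ), Tendsto ω atTop atTop ∧ Monotone ω ∧ ∀ T, T₀ ≤ T → 0 < ω T ∧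
        Covered ⌊T ^ ((ω T : ℝ)⁻¹)⌋₊ ⌊T ^ ((ω T : ℝ)⁻¹)⌋₊ (Exceptional (ω T) U y P T) ∧
        (Exceptional (ω T) U y P T).Finite ∧ ((Exceptional (ω T) U y P T).ncard : ℝ) ≤
          T ^ ((ω T : ℝ)⁻¹) * ({x : ℚ | Height T x}.ncard : ℝ) ^ (Fintype.card X - 1) := by
  constructor
  · intro V P hVo hV hP hc g hg
    exact L5helper21.DT.mainD hg hV hVo hP hc
  · intro X Y _ _ _ _ _ U y P hUo hU hne hy hP halg hc
    obtain ⟨ω, T₀, h1, h2, h3⟩ := L5helper21.DT.excS_omega hU hUo hne hy hP halg hc
    refine ⟨ω, T₀, h1, h2, fun T hT => ?_⟩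
    obtain ⟨h4, ⟨Φ, h5, h6, h7⟩, h8, h9⟩ := h3 T hT
    exact ⟨h4, ⟨Φ, h5, h6, fun x hx => h7 _ ⟨x, hx, rfl⟩⟩, h8, h9⟩

end Pool.Agent.Results.MP_290158_ag.AlmostAllAlgebraicPoints
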