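import Mathlib

/-!
# The degree-bounded statement for families which come from a finite étale cover of the base

Let `S' → S` be a finite étale cover of degree `d`, `S' = {(t, y) : χ(t, y) = 0}`, `χ` monic of degree `d` in `y` over
`K[t]`, and let `X' → S'` be a smooth projective family. The composite `X' → S` is a smooth projective family, too, with
fibre `⊔ X'_u`, where `u` runs over the `d` points of `S'` over `t`. (For `X' = S'` and `j = 0` this is the family of the
fibres of `S' → S`. Instead of `⊔ X'_u` one may also take the Weil restriction, with fibres `∏ X'_u`, when `j = 1`.) If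
`ω_j` is an algebraic basis of the cohomology of the family over `S'`, with periods `Q(u)`, then the classes `y^b ω_j`,
`b < d`, are an algebraic basis for the family over `S`, and the entries of the period matrix `P(t)` are the numbers
`y(u)^b Q(u)_(i,j)`, where `u` runs over the points over `t`. The monodromy permutes the points over `t`; the Zariski closure
of its image is not connected for `d ≥ 2` (for connected `S'`).

We show: at a `K`-rational point `s` of `S` with a point `v` of `S'` over it, the degree `δ` statement over `K = κ(s)` fails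
for all `δ ≥ 1` if the degree of `y(v)` over `K` is less than `d`, that is, if the fibre of `S' → S` over `s` is not
irreducible over `K`, whether `s` is in the Hodge locus or not. If it is irreducible, the statement for the family over `S`
follows from the statement at `v` for the pullback of the family to `S'`, in the form that the relations between the periods
at `v` are values of relations between the functions. So if the latter statement holds, the statement at `s` is true if and
only if the fibre over `s` is irreducible over `K`.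
-/

set_option autoImplicit false

namespace Pool.Agent.Results.MP_290158_ag.DisconnectedMonodromy

/-- The data of the cover and of the family over it: `D` is a connected open set of parameters `u` for (a part of) a
covering space of `S'`, where the periods are single valued; `τ(u)` are the coordinates of the point of `S`, and
`(τ(u), y(u))` is the point of `S'`. -/
structure CoverFamily (q r d m : ℕ) (K : IntermediateField ℚ ℂ) where
  /-- the set of parameters -/
  D : Set (Fin q → ℂ)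
  isOpen : IsOpen D
  isPreconnected : IsPreconnected D
  /-- the coordinates of the point of `S` -/
  τ : (Fin q → ℂ) → Fin r → ℂ
  τ_analytic : ∀ i, AnalyticOnNhd ℂ (fun u => τ u i) D
  /-- the function `y` -/
  y : (Fin q → ℂ) → ℂ
  y_analytic : AnalyticOnNhd ℂ y D
  /-- the equation of the cover -/
  χ : Polynomial (MvPolynomial (Fin r) K)
  monic : χ.Monic
  natDegree : χ.natDegree = d
  equation : ∀ u ∈ D, (χ.map (MvPolynomial.aeval (τ u) : MvPolynomial (Fin r) K →ₐ[K] ℂ).toRingHom).eval (y u) = 0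
  /-- the sheets: `g e u` is a parameter of the `e`-th of the points over the same point of `S` -/
  g : Fin d → (Fin q → ℂ) → Fin q → ℂ
  g_analytic : ∀ e, AnalyticOnNhd ℂ (g e) D
  g_mem : ∀ e, ∀ u ∈ D, g e u ∈ D
  τ_g : ∀ e, ∀ u ∈ D, τ (g e u) = τ u
  y_injective : ∀ u ∈ D, Function.Injective fun e => y (g e u)
  /-- the sheet of `u` itself -/
  base : Fin d
  g_base : ∀ u ∈ D, g base u = u
  /-- the period matrix of the family over `S'` -/
  Q : (Fin q → ℂ) → Matrix (Fin m) (Fin m) ℂ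
  Q_analytic : ∀ i j, AnalyticOnNhd ℂ (fun u => Q u i j) D
  det_ne_zero : ∀ u ∈ D, (Q u).det ≠ 0

variable {q r d m : ℕ} {K : IntermediateField ℚ ℂ}

/-- the indices of rows: a sheet and a cycle; of columns: an exponent `b < d` and a form -/
abbrev Idx (d m : ℕ) : Type := Fin d × Fin m

/-- the period matrix of the family over `S`, in the basis `y^b ω_j` -/
def P (𝓕 : CoverFamily q r d m K) (u : Fin q → ℂ) : Matrix (Idx d m) (Idx d m) ℂ :=
  Matrix.of fun x z => 𝓕.y (𝓕.g x.1 u) ^ (z.1 : ℕ) * 𝓕.Q (𝓕.g x.1 u) x.2 z.2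

/-- the values `(t, M)` of the variables: `t` a point of `S`, `M` a matrix -/
def vals (t : Fin r → ℂ) (M : Matrix (Idx d m) (Idx d m) ℂ) : Fin r ⊕ Idx d m × Idx d m → ℂ :=
  Sum.elim t fun x => M x.1 x.2

/-- the Zariski closure over the algebraic numbers of the graph `(τ(u), P(u))`, `u ∈ U`: the pairs `(t, M)` at which all the
polynomials with algebraic coefficients vanish that vanish at all points of this graph -/
def BP (𝓕 : CoverFamily q r d m K) (U : Set (Fin q → ℂ)) : Set ((Fin r → ℂ) × Matrix (Idx d m) (Idx d m) ℂ) :=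
  {x | ∀ F : MvPolynomial (Fin r ⊕ Idx d m × Idx d m) (algebraicClosure ℚ ℂ),
    (∀ u ∈ U, MvPolynomial.aeval (vals (𝓕.τ u) (P 𝓕 u)) F = 0) → MvPolynomial.aeval (vals x.1 x.2) F = 0}

/-- the degree `δ` statement over `K` at the point `τ(v)` of `S`, for the value `P(v)`: all polynomials over `K` of degree
at most `δ` in the entries of a matrix, which vanish at `P(v)`, vanish on the fibre of the Zariski closure of the graph -/
def DegreeStatement (𝓕 : CoverFamily q r d m K) (U : Set (Fin q → ℂ)) (v : Fin q → ℂ) (δ : ℕ) : Prop :=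
  ∀ R : MvPolynomial (Idx d m × Idx d m) K, R.totalDegree ≤ δ → MvPolynomial.aeval (fun x => P 𝓕 v x.1 x.2) R = 0 →
    ∀ M : Matrix (Idx d m) (Idx d m) ℂ, (𝓕.τ v, M) ∈ BP 𝓕 U → MvPolynomial.aeval (fun x => M x.1 x.2) R = 0

/-- the degree `δ` statement at the point `v` of the cover, for the same periods, as a statement on relations between the
functions: each polynomial `R` over `K` of degree at most `δ` which vanishes at `P(v)` is the value at `v` of a polynomial
`∑ y^b G_b(t, X)` (`b < d`, the `G_b` over `K`) which vanishes at `X = P(u)` for all `u ∈ U` -/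
def CoverStatement (𝓕 : CoverFamily q r d m K) (U : Set (Fin q → ℂ)) (v : Fin q → ℂ) (δ : ℕ) : Prop :=
  ∀ R : MvPolynomial (Idx d m × Idx d m) K, R.totalDegree ≤ δ → MvPolynomial.aeval (fun x => P 𝓕 v x.1 x.2) R = 0 →
    ∃ G : Fin d → MvPolynomial (Fin r ⊕ Idx d m × Idx d m) K,
      (∀ u ∈ U, ∑ b : Fin d, 𝓕.y u ^ (b : ℕ) * MvPolynomial.aeval (vals (𝓕.τ u) (P 𝓕 u)) (G b) = 0) ∧
      ∀ M : Matrix (Idx d m) (Idx d m) ℂ, ∑ b : Fin d, 𝓕.y v ^ (b : ℕ) * MvPolynomial.aeval (vals (𝓕.τ v) M) (G b) =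
        MvPolynomial.aeval (fun x => M x.1 x.2) R

/-- the degree of `y(v)` over `K` is at least `d`: the fibre of the cover over `τ(v)` is irreducible over `K` -/
def IrreducibleFibre (𝓕 : CoverFamily q r d m K) (v : Fin q → ℂ) : Prop :=
  ∀ p : Polynomial K, p ≠ 0 → p.natDegree < d → Polynomial.aeval (𝓕.y v) p ≠ 0

theorem P_analytic (𝓕 : CoverFamily q r d m K) (x z : Idx d m) : AnalyticOnNhd ℂ (fun u => P 𝓕 u x z) 𝓕.D := by
  have h1 : AnalyticOnNhd ℂ (fun u => 𝓕.y (𝓕.g x.1 u)) 𝓕.D := 𝓕.y_analytic.comp (𝓕.g_analytic x.1) (𝓕.g_mem x.1)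
  have h2 : AnalyticOnNhd ℂ (fun u => 𝓕.Q (𝓕.g x.1 u) x.2 z.2) 𝓕.D :=
    (𝓕.Q_analytic x.2 z.2).comp (𝓕.g_analytic x.1) (𝓕.g_mem x.1)
  exact (h1.pow _).mul h2

theorem aeval_analytic (𝓕 : CoverFamily q r d m K) {A : Type} [CommRing A] [Algebra A ℂ]
    (F : MvPolynomial (Fin r ⊕ Idx d m × Idx d m) A) :
    AnalyticOnNhd ℂ (fun u => MvPolynomial.aeval (vals (𝓕.τ u) (P 𝓕 u)) F) 𝓕.D := by
  induction F using MvPolynomial.induction_on with
  | C a =>
    simp only [MvPolynomial.aeval_C]
    exact analyticOnNhd_const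
  | add p q hp hq =>
    simp only [map_add]
    exact hp.add hq
  | mul_X p o hp =>
    simp only [map_mul, MvPolynomial.aeval_X]
    refine hp.mul ?_
    rcases o with i | x
    · exact 𝓕.τ_analytic i
    · exact P_analytic 𝓕 x.1 x.2

/-- all branches are in the Zariski closure of the graph of one of them -/
theorem mem_BP (𝓕 : CoverFamily q r d m K) {U : Set (Fin q → ℂ)} (hU : IsOpen U) (hU0 : U.Nonempty) (hUD : U ⊆ 𝓕.D)
    {u : Fin q → ℂ} (hu : u ∈ 𝓕.D) : (𝓕.τ u, P 𝓕 u) ∈ BP 𝓕 U := by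
  intro F hF
  obtain ⟨u0, hu0⟩ := hU0
  have h2 : (fun u => MvPolynomial.aeval (vals (𝓕.τ u) (P 𝓕 u)) F) =ᶠ[nhds u0] 0 :=
    Filter.eventuallyEq_of_mem (hU.mem_nhds hu0) fun u hu => hF u hu
  exact (aeval_analytic 𝓕 F).eqOn_zero_of_preconnected_of_eventuallyEq_zero 𝓕.isPreconnected (hUD hu0) h2 hu

/-- the fibre is not irreducible -/
theorem fails (hm : 0 < m) (𝓕 : CoverFamily q r d m K) {U : Set (Fin q → ℂ)} (hU : IsOpen U) (hU0 : U.Nonempty)
    (hUD : U ⊆ 𝓕.D) {v : Fin q → ℂ} (hv : v ∈ 𝓕.D) (hirr : ¬ IrreducibleFibre 𝓕 v) {δ : ℕ} (hδ : 1 ≤ δ) :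
    ¬ DegreeStatement 𝓕 U v δ := by
  classical
  intro hD
  unfold IrreducibleFibre at hirr
  push Not at hirr
  obtain ⟨p, hp0, hpd, hpv⟩ := hirr
  -- a sheet which is not a root
  obtain ⟨e, he⟩ : ∃ e, Polynomial.aeval (𝓕.y (𝓕.g e v)) p ≠ 0 := by
    by_contra hcon
    push Not at hcon
    have h1 : (Finset.univ.image fun e => 𝓕.y (𝓕.g e v)) ⊆ (p.map (algebraMap K ℂ)).roots.toFinset := by
      intro z hz
      obtain ⟨e, -, rfl⟩ := Finset.mem_image.1 hz
      rw [Multiset.mem_toFinset, Polynomial.mem_roots (Polynomial.map_ne_zero hp0), Polynomial.IsRoot.def,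
        Polynomial.eval_map_algebraMap]
      exact hcon e
    have h2 := (Finset.card_le_card h1).trans ((Multiset.toFinset_card_le _).trans (Polynomial.card_roots' _))
    rw [Finset.card_image_of_injective _ (𝓕.y_injective v hv), Finset.card_univ, Fintype.card_fin] at h2
    have h3 := Polynomial.natDegree_map_le (f := algebraMap K ℂ) (p := p)
    omega
  have hw : 𝓕.g e v ∈ 𝓕.D := 𝓕.g_mem e v hv
  set w := 𝓕.g e v with hwdef
  obtain ⟨i, j, hij⟩ : ∃ i j, 𝓕.Q w i j ≠ 0 := by
    by_contra h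
    push Not at h
    have : Nonempty (Fin m) := ⟨⟨0, hm⟩⟩
    refine 𝓕.det_ne_zero w hw ?_
    have h3 : 𝓕.Q w = 0 := by
      ext i j
      exact h i j
    rw [h3, Matrix.det_zero]
  set R : MvPolynomial (Idx d m × Idx d m) K := ∑ b : Fin d, MvPolynomial.C (p.coeff b) *
    MvPolynomial.X (((𝓕.base, i), (b, j)) : Idx d m × Idx d m) with hR
  have hRd : R.totalDegree ≤ δ := by
    refine (MvPolynomial.totalDegree_finsetSum _ _).trans (Finset.sup_le fun b _ => ?_)
    refine (MvPolynomial.totalDegree_mul _ _).trans ?_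
    rw [MvPolynomial.totalDegree_X, MvPolynomial.totalDegree_C]
    omega
  have hval : ∀ u ∈ 𝓕.D, MvPolynomial.aeval (fun y : Idx d m × Idx d m => P 𝓕 u y.1 y.2) R =
      Polynomial.aeval (𝓕.y u) p * 𝓕.Q u i j := by
    intro u hu
    rw [hR, map_sum, Polynomial.aeval_eq_sum_range' hpd, Finset.sum_mul, Finset.sum_range]
    refine Finset.sum_congr rfl fun b _ => ?_
    rw [map_mul, MvPolynomial.aeval_C, MvPolynomial.aeval_X, Algebra.smul_def]
    show _ * (𝓕.y (𝓕.g 𝓕.base u) ^ (b : ℕ) * 𝓕.Q (𝓕.g 𝓕.base u) i j) = _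
    rw [𝓕.g_base u hu, mul_assoc]
  have h3 := hD R hRd (by rw [hval v hv, hpv, zero_mul]) (P 𝓕 w) (by
    have h4 := mem_BP 𝓕 hU hU0 hUD hw
    rwa [hwdef, 𝓕.τ_g e v hv] at h4)
  rw [hval w hw] at h3
  exact (mul_ne_zero he hij) h3

/-- the companion matrix -/
def comp {A : Type} [CommRing A] (χ : Polynomial A) (d : ℕ) : Matrix (Fin d) (Fin d) A :=
  Matrix.of fun i j => if (j : ℕ) + 1 = d then - χ.coeff i else if (i : ℕ) = j + 1 then 1 else 0

theorem vec_comp {A : Type} [CommRing A] {χ : Polynomial A} {d : ℕ} (hχ : χ.Monic) (hd : χ.natDegree = d) {y : A}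
    (hy : χ.eval y = 0) : Matrix.vecMul (fun i : Fin d => y ^ (i : ℕ)) (comp χ d) = y • fun i : Fin d => y ^ (i : ℕ) := by
  funext j
  rw [Matrix.vecMul, dotProduct, Pi.smul_apply, smul_eq_mul]
  unfold comp
  by_cases hj : (j : ℕ) + 1 = d
  · simp only [Matrix.of_apply, if_pos hj]
    rw [Polynomial.eval_eq_sum_range, hd, Finset.sum_range_succ] at hy
    have h1 : χ.coeff d = 1 := by
      rw [← hd]
      exact hχ
    rw [h1, one_mul] at hy
    have h2 : y * y ^ (j : ℕ) = y ^ d := by rw [← pow_succ', hj]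
    rw [h2, ← Fin.sum_univ_eq_sum_range (fun i => χ.coeff i * y ^ i)] at *
    have h3 : ∑ i : Fin d, y ^ (i : ℕ) * -χ.coeff i = - ∑ i : Fin d, χ.coeff i * y ^ (i : ℕ) := by
      rw [← Finset.sum_neg_distrib]
      exact Finset.sum_congr rfl fun i _ => by ring
    rw [h3]
    linear_combination -hy
  · simp only [Matrix.of_apply, if_neg hj]
    have hj' : (j : ℕ) + 1 < d := by omega
    rw [Finset.sum_eq_single (⟨j + 1, hj'⟩ : Fin d)]
    · simp only [if_true, mul_one]
      rw [pow_succ']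
    · intro b _ hb
      rw [if_neg, mul_zero]
      intro h
      exact hb (Fin.ext h)
    · intro h
      exact absurd (Finset.mem_univ _) h

theorem comp_map {A B : Type} [CommRing A] [CommRing B] (φ : A →+* B) (χ : Polynomial A) (d : ℕ) :
    (comp χ d).map φ = comp (χ.map φ) d := by
  ext i j
  unfold comp
  simp only [Matrix.map_apply, Matrix.of_apply]
  split_ifs
  · rw [map_neg, Polynomial.coeff_map]
  · rw [map_one]
  · rw [map_zero]

/-- the equation over the ring of polynomials in all the variables -/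
noncomputable def χ' (𝓕 : CoverFamily q r d m K) : Polynomial (MvPolynomial (Fin r ⊕ Idx d m × Idx d m) K) :=
  𝓕.χ.map (MvPolynomial.rename Sum.inl : MvPolynomial (Fin r) K →ₐ[K] MvPolynomial (Fin r ⊕ Idx d m × Idx d m) K).toRingHom

/-- the norm of a polynomial in `y` -/
noncomputable def nrm (𝓕 : CoverFamily q r d m K) (G : Fin d → MvPolynomial (Fin r ⊕ Idx d m × Idx d m) K) :
    MvPolynomial (Fin r ⊕ Idx d m × Idx d m) K :=
  (∑ b : Fin d, G b • comp (χ' 𝓕) d ^ (b : ℕ)).det

theorem nrm_eval (𝓕 : CoverFamily q r d m K) (G : Fin d → MvPolynomial (Fin r ⊕ Idx d m × Idx d m) K)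
    (t : Fin r → ℂ) (M : Matrix (Idx d m) (Idx d m) ℂ) :
    MvPolynomial.aeval (vals t M) (nrm 𝓕 G) = (∑ b : Fin d, MvPolynomial.aeval (vals t M) (G b) •
      comp (𝓕.χ.map (MvPolynomial.aeval t : MvPolynomial (Fin r) K →ₐ[K] ℂ).toRingHom) d ^ (b : ℕ)).det := by
  set φ : MvPolynomial (Fin r ⊕ Idx d m × Idx d m) K →+* ℂ :=
    (MvPolynomial.aeval (vals t M) : MvPolynomial (Fin r ⊕ Idx d m × Idx d m) K →ₐ[K] ℂ).toRingHom with hφ
  have h0 : (χ' 𝓕).map φ = 𝓕.χ.map (MvPolynomial.aeval t : MvPolynomial (Fin r) K →ₐ[K] ℂ).toRingHom := by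
    unfold χ'
    rw [Polynomial.map_map]
    congr 1
    refine RingHom.ext fun z => ?_
    show MvPolynomial.aeval (vals t M) (MvPolynomial.rename Sum.inl z) = MvPolynomial.aeval t z
    rw [MvPolynomial.aeval_rename]
    rfl
  have h1 : MvPolynomial.aeval (vals t M) (nrm 𝓕 G) = φ (nrm 𝓕 G) := rfl
  rw [h1]
  unfold nrm
  rw [RingHom.map_det, map_sum]
  congr 1
  refine Finset.sum_congr rfl fun b _ => ?_
  have h2 : φ.mapMatrix (G b • comp (χ' 𝓕) d ^ (b : ℕ)) = φ (G b) • (φ.mapMatrix (comp (χ' 𝓕) d)) ^ (b : ℕ) := by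
    rw [← map_pow]
    ext i j
    simp [Matrix.smul_apply]
  rw [h2, ← h0, ← comp_map φ]
  rfl

/-- the fibre is irreducible -/
theorem holds (hd : 0 < d) (hK : K ≤ (algebraicClosure ℚ ℂ)) (𝓕 : CoverFamily q r d m K) {U : Set (Fin q → ℂ)}
    (hUD : U ⊆ 𝓕.D) {v : Fin q → ℂ} (hs : ∀ i, 𝓕.τ v i ∈ K) (hirr : IrreducibleFibre 𝓕 v) {δ : ℕ}
    (hC : CoverStatement 𝓕 U v δ) : DegreeStatement 𝓕 U v δ := by
  classical
  intro R hR hR0 M hM
  obtain ⟨G, hG1, hG2⟩ := hC R hR hR0
  -- the specialisations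
  set gs : Fin d → MvPolynomial (Idx d m × Idx d m) K := fun b =>
    MvPolynomial.aeval (Sum.elim (fun i => MvPolynomial.C ⟨𝓕.τ v i, hs i⟩) MvPolynomial.X :
      Fin r ⊕ Idx d m × Idx d m → MvPolynomial (Idx d m × Idx d m) K) (G b) with hgs
  have hgv : ∀ (b : Fin d) (M : Matrix (Idx d m) (Idx d m) ℂ),
      MvPolynomial.aeval (fun x : Idx d m × Idx d m => M x.1 x.2) (gs b) =
        MvPolynomial.aeval (vals (𝓕.τ v) M) (G b) := by
    intro b M
    rw [hgs]
    have h1 := MvPolynomial.comp_aeval_apply (f := (Sum.elim (fun i => MvPolynomial.C ⟨𝓕.τ v i, hs i⟩) MvPolynomial.X :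
      Fin r ⊕ Idx d m × Idx d m → MvPolynomial (Idx d m × Idx d m) K))
      (MvPolynomial.aeval (fun x : Idx d m × Idx d m => M x.1 x.2) : MvPolynomial (Idx d m × Idx d m) K →ₐ[K] ℂ) (G b)
    rw [h1]
    congr 2
    funext o
    rcases o with i | x
    · show MvPolynomial.aeval _ (MvPolynomial.C _) = 𝓕.τ v i
      rw [MvPolynomial.aeval_C]
      rfl
    · show MvPolynomial.aeval _ (MvPolynomial.X _) = M x.1 x.2
      rw [MvPolynomial.aeval_X]
  -- the identity of polynomials
  have hpoly : ∑ b : Fin d, MvPolynomial.C (𝓕.y v ^ (b : ℕ)) * (gs b).map (algebraMap K ℂ) = R.map (algebraMap K ℂ) := by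
    refine MvPolynomial.funext fun X => ?_
    rw [map_sum]
    have h1 := hG2 (Matrix.of fun x z => X (x, z))
    have h2 : (fun x : Idx d m × Idx d m => (Matrix.of fun x z => X (x, z)) x.1 x.2) = X := rfl
    rw [h2] at h1
    rw [MvPolynomial.eval_map, ← MvPolynomial.aeval_def, ← h1]
    refine Finset.sum_congr rfl fun b _ => ?_
    rw [map_mul, MvPolynomial.eval_C, MvPolynomial.eval_map, ← MvPolynomial.aeval_def, ← hgv b]
    rfl
  have hcoef : ∀ s, (gs ⟨0, hd⟩).coeff s = R.coeff s ∧ ∀ b : Fin d, (b : ℕ) ≠ 0 → (gs b).coeff s = 0 := by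
    intro s
    have h1 := congrArg (MvPolynomial.coeff s) hpoly
    rw [MvPolynomial.coeff_sum, MvPolynomial.coeff_map] at h1
    simp only [MvPolynomial.coeff_C_mul, MvPolynomial.coeff_map] at h1
    set p : Polynomial K := ∑ b : Fin d, Polynomial.C ((gs b).coeff s) * Polynomial.X ^ (b : ℕ) -
      Polynomial.C (R.coeff s) with hp
    have hp0 : Polynomial.aeval (𝓕.y v) p = 0 := by
      rw [hp, map_sub, map_sum, Polynomial.aeval_C, ← h1, sub_eq_zero]
      refine Finset.sum_congr rfl fun b _ => ?_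
      rw [map_mul, Polynomial.aeval_C, map_pow, Polynomial.aeval_X, mul_comm]
    have hpd : p.natDegree < d := by
      refine (Polynomial.natDegree_sub_le _ _).trans_lt (max_lt ?_ (by rw [Polynomial.natDegree_C]; exact hd))
      refine (Polynomial.natDegree_sum_le _ _).trans_lt ?_
      rw [Finset.fold_max_lt]
      refine ⟨hd, fun b _ => ?_⟩
      exact (Polynomial.natDegree_C_mul_X_pow_le _ _).trans_lt b.2
    have hpz : p = 0 := by
      by_contra hne
      exact hirr p hne hpd hp0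
    have hc : ∀ b : Fin d, p.coeff b = (gs b).coeff s - (if (b : ℕ) = 0 then R.coeff s else 0) := by
      intro b
      rw [hp, Polynomial.coeff_sub, Polynomial.finsetSum_coeff, Polynomial.coeff_C]
      congr 1
      rw [Finset.sum_eq_single b]
      · rw [Polynomial.coeff_C_mul_X_pow, if_pos rfl]
      · intro b' _ hb'
        rw [Polynomial.coeff_C_mul_X_pow, if_neg]
        intro h
        exact hb' (Fin.ext h.symm)
      · intro h
        exact absurd (Finset.mem_univ _) h
    constructor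
    · have h2 := hc ⟨0, hd⟩
      rw [hpz, Polynomial.coeff_zero, if_pos rfl] at h2
      exact (sub_eq_zero.1 h2.symm)
    · intro b hb
      have h2 := hc b
      rw [hpz, Polynomial.coeff_zero, if_neg hb, sub_zero] at h2
      exact h2.symm
  have hg0 : gs ⟨0, hd⟩ = R := MvPolynomial.ext _ _ fun s => (hcoef s).1
  have hgb : ∀ b : Fin d, (b : ℕ) ≠ 0 → gs b = 0 := fun b hb => MvPolynomial.ext _ _ fun s => by
    rw [(hcoef s).2 b hb, MvPolynomial.coeff_zero]
  -- the norm vanishes on the graph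
  have hzero : ∀ u ∈ U, MvPolynomial.aeval (vals (𝓕.τ u) (P 𝓕 u)) (nrm 𝓕 G) = 0 := by
    intro u hu
    rw [nrm_eval]
    set Cm := comp (𝓕.χ.map (MvPolynomial.aeval (𝓕.τ u) : MvPolynomial (Fin r) K →ₐ[K] ℂ).toRingHom) d with hCm
    have hw := vec_comp (𝓕.monic.map (MvPolynomial.aeval (𝓕.τ u) : MvPolynomial (Fin r) K →ₐ[K] ℂ).toRingHom)
      ((𝓕.monic.natDegree_map _).trans 𝓕.natDegree) (𝓕.equation u (hUD hu))
    rw [← hCm] at hw
    set w : Fin d → ℂ := fun i => 𝓕.y u ^ (i : ℕ) with hwd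
    have hwp : ∀ n : ℕ, Matrix.vecMul w (Cm ^ n) = 𝓕.y u ^ n • w := by
      intro n
      induction n with
      | zero => rw [pow_zero, pow_zero, one_smul, Matrix.vecMul_one]
      | succ n ih => rw [pow_succ, ← Matrix.vecMul_vecMul, ih, Matrix.smul_vecMul, hw, smul_smul, ← pow_succ]
    refine Matrix.exists_vecMul_eq_zero_iff.1 ⟨w, ?_, ?_⟩
    · intro h
      have h1 := congrFun h ⟨0, hd⟩
      simp [hwd] at h1
    · rw [Matrix.vecMul_sum]
      have h1 : ∀ b : Fin d, Matrix.vecMul w (MvPolynomial.aeval (vals (𝓕.τ u) (P 𝓕 u)) (G b) • Cm ^ (b : ℕ)) =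
          (𝓕.y u ^ (b : ℕ) * MvPolynomial.aeval (vals (𝓕.τ u) (P 𝓕 u)) (G b)) • w := by
        intro b
        rw [Matrix.vecMul_smul, hwp, smul_smul, mul_comm]
      rw [Finset.sum_congr rfl fun b _ => h1 b, ← Finset.sum_smul, hG1 u hu, zero_smul]
  -- the norm at the point of the fibre
  have hFM : MvPolynomial.aeval (vals (𝓕.τ v) M) (nrm 𝓕 G) = 0 := by
    set ι : K →+* algebraicClosure ℚ ℂ := (IntermediateField.inclusion hK).toRingHom with hι
    have hmap : ∀ (t : Fin r → ℂ) (M : Matrix (Idx d m) (Idx d m) ℂ),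
        MvPolynomial.aeval (vals t M) ((nrm 𝓕 G).map ι) = MvPolynomial.aeval (vals t M) (nrm 𝓕 G) := by
      intro t M
      rw [MvPolynomial.aeval_def, MvPolynomial.eval₂_map, MvPolynomial.aeval_def]
      rfl
    have h1 := hM ((nrm 𝓕 G).map ι) fun u hu => by rw [hmap]; exact hzero u hu
    rwa [hmap] at h1
  rw [nrm_eval] at hFM
  have hsum : ∑ b : Fin d, MvPolynomial.aeval (vals (𝓕.τ v) M) (G b) •
      comp (𝓕.χ.map (MvPolynomial.aeval (𝓕.τ v) : MvPolynomial (Fin r) K →ₐ[K] ℂ).toRingHom) d ^ (b : ℕ) =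
      MvPolynomial.aeval (fun x : Idx d m × Idx d m => M x.1 x.2) R • (1 : Matrix (Fin d) (Fin d) ℂ) := by
    rw [Finset.sum_eq_single (⟨0, hd⟩ : Fin d)]
    · rw [← hgv, hg0]
      simp only [pow_zero]
    · intro b _ hb
      rw [← hgv, hgb b (fun h => hb (Fin.ext h)), map_zero, zero_smul]
    · intro h
      exact absurd (Finset.mem_univ _) h
  rw [hsum, Matrix.det_smul, Matrix.det_one, mul_one, Fintype.card_fin] at hFM
  exact pow_eq_zero_iff (by omega) |>.1 hFM

/-- Let `X' → S'` be a family over a cover of degree `d ≥ 1` of the base `S`, over the number field `K`, `m ≥ 1`, let `U` be a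
nonempty open subset of `D` (it determines a branch of the periods), `v` a point of `D` for which `τ(v)` is `K`-rational, and
`δ ≥ 1`. All values `P(g_e v)` are in the fibre over `τ(v)` of the Zariski closure of the graph. If the fibre of the cover over
`τ(v)` is not irreducible over `K`, the degree `δ` statement at `τ(v)` for the family over `S` fails. If the statement at `v`
for the periods as functions on the cover is true, the degree `δ` statement at `τ(v)` is true if and only if the fibre of the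
cover is irreducible over `K`. -/
theorem result (hd : 0 < d) (hm : 0 < m) [FiniteDimensional ℚ K] (𝓕 : CoverFamily q r d m K) (U : Set (Fin q → ℂ))
    (hU : IsOpen U) (hU0 : U.Nonempty) (hUD : U ⊆ 𝓕.D) (v : Fin q → ℂ) (hv : v ∈ 𝓕.D) (hs : ∀ i, 𝓕.τ v i ∈ K)
    (δ : ℕ) (hδ : 1 ≤ δ) :
    (∀ e, (𝓕.τ v, P 𝓕 (𝓕.g e v)) ∈ BP 𝓕 U) ∧
    (¬ IrreducibleFibre 𝓕 v → ¬ DegreeStatement 𝓕 U v δ) ∧
    (CoverStatement 𝓕 U v δ → (DegreeStatement 𝓕 U v δ ↔ IrreducibleFibre 𝓕 v)) := by
  refine ⟨fun e => ?_, fun h => fails hm 𝓕 hU hU0 hUD hv h hδ, fun hC => ⟨fun h => ?_, fun h => ?_⟩⟩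
  · have h1 := mem_BP 𝓕 hU hU0 hUD (𝓕.g_mem e v hv)
    rwa [𝓕.τ_g e v hv] at h1
  · by_contra hcon
    exact fails hm 𝓕 hU hU0 hUD hv hcon hδ h
  · refine holds hd (fun x hx => ?_) 𝓕 hUD hs h hC
    rw [mem_algebraicClosure_iff]
    have h1 := Algebra.IsAlgebraic.isAlgebraic (R := ℚ) (⟨x, hx⟩ : K)
    exact h1.algebraMap (A := ℂ)

end Pool.Agent.Results.MP_290158_ag.DisconnectedMonodromy
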