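import Pool.Agent.L5helper14.SW.ResL
import Pool.Agent.Results.MP_290158_ag.AllFamilies

/-!
# Arbitrary families, relative to arbitrary constants: fibres chosen one after another outside very thin sets

We use the families of `AllFamilies`: a fundamental matrix, regular at `z = 0`, of a system of differential equations over
`L(z)`, `L` a number field, whose entries and those of its inverse are G-functions, for example of the Gauss-Manin
connection of ANY family of smooth projective varieties over the `z`-line, defined over `L`, with good fibre at `z = 0`, and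
the matrix `Ω` of the periods at `z = 0`. In `AllFamilies` it is proved that for the product of `p` families the
degree-`δ` statement over a number field `K` holds at `(1 / m_1, …, 1 / m_p)` for all but `C T ^ (p - c)` of the `p`-tuples
up to `T`, and for `p = 1` for all but at most `M` integers of each short interval `[N, N + N ^ c]`.

Here we consider the degree-`δ` statement RELATIVE to arbitrary complex constants `w_1, …, w_q`: all the relations of degree
at most `δ` over `K` between the periods of the fibre and the constants are specialisations of relations with the same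
constants which hold identically. A set of natural numbers is called thin if it has at most `M` elements in each interval
`[N, N + N ^ c]`. The numbers `c` and `M` in this theorem do not depend on the constants `w`, and they depend on `K` only
through a bound for the degree `[K : ℚ]`.

(1) Choose `m_p, …, m_2, m_1` one after another, `m_l` arbitrary outside a thin set which depends on the numbers chosen
before. Then the relative degree-`δ` statement holds for the product of the `p` fibres at `1 / m_1, …, 1 / m_p`. So all the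
`m_l` may be chosen in short intervals, or in arbitrary sets `S_l`: if `S_l` is covered by `k_l` intervals `[N, N + N ^ c]`
then at most `M ∑_l k_l ∏_{i ≠ l} |S_i|` of the elements of `S_1 × … × S_p` are exceptional, and if the `S_l` are subsets
of `[1, T]` then at most `C T ^ (1 - c) ∑_l ∏_{i ≠ l} |S_i|`.

(2) For infinitely many arbitrary families `F_0, F_1, …` over number fields `L_0, L_1, …`, number fields `K_0, K_1, …`,
degrees `δ_0, δ_1, …`, and arbitrary complex constants `w_0, w_1, …`, choose integers `m_0, m_1, …` one after another, the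
number `m_j` outside a thin set which depends on `m_0, …, m_(j-1)`; the numbers `c_j`, `M_j` in the definition of thin do
not depend on the integers chosen before and the constants. Then for all `j` the relations of degree at most `δ_j` over
`K_j` between the periods of the fibre of `F_j` at `1 / m_j`, ALL the periods of all the previous fibres, and `w_0, …,
w_(q_j - 1)` are the specialisations at `z = 1 / m_j` of the relations over `K_j[z]` which hold identically.

The uniformity in the constants comes from a bound for the dimension of the space of constants and for the degree of the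
exceptional polynomial in the specialisation argument, which is a minor of a matrix of polynomials of bounded degree.
-/

set_option autoImplicit false

open PowerSeries

namespace Pool.Agent.Results.MP_290158_ag.SequentialWindows

open Pool.Agent.Results.MP_290158_ag.AllFamilies (Family periods DegreeStatement)

/-- `B` is thin: it has at most `M` elements in each interval `[N, N + N ^ c]` -/
def Thin (c : ℝ) (M : ℕ) (B : Set ℕ) : Prop :=
  ∀ (N : ℕ) (S : Finset ℕ), 1 ≤ N → (∀ s ∈ S, s ∈ B ∧ N ≤ s ∧ (s : ℝ) ≤ N + (N : ℝ) ^ c) → S.card ≤ M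

/-- `S` is covered by `q` intervals `[N, N + N ^ c]` -/
def Covered (c : ℝ) (q : ℕ) (S : Finset ℕ) : Prop :=
  ∃ N : Fin q → ℕ, (∀ i, 1 ≤ N i) ∧ ∀ s ∈ S, ∃ i, N i ≤ s ∧ (s : ℝ) ≤ N i + (N i : ℝ) ^ c

/-- the point `(1 / m_1, …, 1 / m_p)` is in the polydisc of radius `r`, and the degree `δ` statement over `K` holds there
for the periods of the product family together with the constants `w` -/
def GoodWith (K : Type) [Field K] [Algebra K ℂ] {L : Type} [Field L] [Algebra L ℂ] {p : ℕ} (F : Fin p → Family L)
    {κ : Type} (w : κ → ℂ) (r : ℝ) (δ : ℕ) (m : Fin p → ℕ) : Prop :=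
  (∀ l, 1 / (m l : ℝ) < r) ∧ DegreeStatement K (fun z => Sum.elim (periods F z) w) r δ fun l => 1 / (m l : K)

/-- the periods of the fibres of the families `F i` at `1 / m i`, `i < j`, and the first `q` of the constants `w` -/
noncomputable def previous {L : ℕ → Type} [∀ j, Field (L j)] [∀ j, Algebra (L j) ℂ] (F : ∀ j, Family (L j)) (w : ℕ → ℂ)
    (m : ℕ → ℕ) (j q : ℕ) : (Σ i : Fin j, Fin (F i).σ × Fin (F i).n) ⊕ Fin q → ℂ :=
  Sum.elim (fun v => (F v.1).periods (1 / (m v.1 : ℂ)) v.2) fun i => w i

section proofs

variable {L : Type} [Field L] [Algebra L ℂ]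

open Pool.Agent.Y921.DB Pool.Agent.L5helper14.SW

/-- no families: nothing to prove -/
theorem good_zero (K : Type) [Field K] [Algebra K ℂ] {κ : Type} (F : Fin 0 → Family L) (w : κ → ℂ) (r : ℝ) (δ : ℕ)
    (m : Fin 0 → ℕ) : GoodWith K F w r δ m := by
  refine ⟨fun l => l.elim0, fun R hR h0 => ⟨R.map MvPolynomial.C, ?_, ?_, fun z _ => ?_⟩⟩
  · exact (Finset.sup_mono (MvPolynomial.support_map_subset _ _)).trans hR
  · rw [MvPolynomial.map_map]
    have h1 : (MvPolynomial.eval (fun l : Fin 0 => 1 / (m l : K))).comp MvPolynomial.C = RingHom.id K := by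
      ext x
      simp
    rw [h1, MvPolynomial.map_id]
  · rw [MvPolynomial.eval₂_map]
    have h1 : (MvPolynomial.aeval z : MvPolynomial (Fin 0) K →ₐ[K] ℂ).toRingHom.comp MvPolynomial.C =
        algebraMap K ℂ := by
      ext x
      simp
    rw [h1]
    have h2 : (fun l => algebraMap K ℂ (1 / (m l : K))) = z := Subsingleton.elim _ _
    rw [h2] at h0
    exact h0

theorem good_of {p : ℕ} (l₀ : Fin p) (F : Fin p → Family L) (K : Type) [Field K] [Algebra K ℂ] {κ : Type} (w : κ → ℂ)
    {M : ℕ} {Z : Fin M → Fin M → L⟦X⟧}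
    {lam : Fin p → (Σ l, Fin (F l).σ × Fin (F l).n) → Option (Fin M × Fin M) → ℂ}
    (h : ∀ z : Fin p → ℂ, ∀ v, periods F z v = ptL lam Z z (v.1, v)) {r : ℝ} {δ : ℕ} {m : Fin p → ℕ}
    (h0 : ∀ v l, v.1 ≠ l → ∀ q, lam l v q = 0)
    (hm : ∀ l, 1 / (m l : ℝ) < r)
    (hs : SpecK K (ptL (fun l => Sum.elim (lam l) fun j q => if l = l₀ then q.elim (w j) fun _ => 0 else 0) Z) r δ m) :
    GoodWith K F w r δ m := by
  classical
  set lam' : Fin p → ((Σ l, Fin (F l).σ × Fin (F l).n) ⊕ κ) → Option (Fin M × Fin M) → ℂ :=
    fun l => Sum.elim (lam l) fun j q => if l = l₀ then q.elim (w j) fun _ => 0 else 0 with hlam'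
  have h1 : SpecK K (fun z => Sum.elim (periods F z) w) r δ m := by
    refine SpecK.rename (g := fun v : (Σ l, Fin (F l).σ × Fin (F l).n) ⊕ κ =>
      ((Sum.elim (fun v => v.1) (fun _ => l₀) v : Fin p), v))
      (fun v v' hv => (Prod.ext_iff.1 hv).2) (fun z t => ?_) (fun z t' ht' => ?_) hs
    · rcases t with v | j
      · exact (h z v).symm
      · show ptL lam' Z z (l₀, Sum.inr j) = w j
        unfold ptL
        simp only [hlam', Sum.elim_inr, if_true]
        rw [Fintype.sum_option]
        simp
    · obtain ⟨l, v | j⟩ := t'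
      · show ptL lam' Z z (l, Sum.inl v) = 0
        unfold ptL
        refine Finset.sum_eq_zero fun q _ => ?_
        simp only [hlam', Sum.elim_inl]
        rw [h0 v l (fun hh => ht' ⟨Sum.inl v, Prod.ext hh rfl⟩), zero_mul]
      · show ptL lam' Z z (l, Sum.inr j) = 0
        unfold ptL
        refine Finset.sum_eq_zero fun q _ => ?_
        simp only [hlam', Sum.elim_inr]
        rw [if_neg (fun hh => ht' ⟨Sum.inr j, Prod.ext hh.symm rfl⟩), zero_mul]
  refine ⟨hm, fun R hR hR0 => ?_⟩
  have h7 : (fun l => algebraMap K ℂ (1 / (m l : K))) = fun l => 1 / (m l : ℂ) := by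
    funext l
    simp
  rw [h7] at hR0
  obtain ⟨G, hG1, hG2, hG3⟩ := h1 R hR hR0
  exact ⟨G, hG1, hG3, hG2⟩

/-- the sequential statement -/
theorem seq_all [NumberField L] {p : ℕ} (F : Fin p → Family L) (κ : Type) [Fintype κ] (δ D : ℕ) :
    ∃ r : ℝ, 0 < r ∧ ∃ c : ℝ, 0 < c ∧ ∃ M : ℕ, ∀ (K : Type) [Field K] [NumberField K] [Algebra K ℂ],
      Module.finrank ℚ K ≤ D → ∀ w : κ → ℂ, ∃ E : Fin p → (Fin p → ℕ) → Set ℕ, (∀ l m, Thin c M (E l m)) ∧
        (∀ l m m', (∀ i, l < i → m i = m' i) → E l m = E l m') ∧
        ∀ m, (∀ l, m l ∉ E l m) → GoodWith K F w r δ m := by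
  rcases p with _ | p
  · exact ⟨1, one_pos, 1, one_pos, 0, fun K _ _ _ _ w => ⟨fun _ _ => ∅, fun l => l.elim0, fun l => l.elim0,
      fun m _ => good_zero K F w 1 δ m⟩⟩
  · obtain ⟨M', f, A, Z, W, lam, hD, h0, hrep⟩ := Pool.Agent.Results.MP_290158_ag.AllFamilies.rep F
    obtain ⟨r, hr, c, hc, M, H⟩ := specL_seq (k := p + 1) (ι := (Σ l, Fin (F l).σ × Fin (F l).n) ⊕ κ) hD δ D
    refine ⟨r, hr, c, hc, M, ?_⟩
    intro K _ _ _ hKD w
    obtain ⟨E, hE, hE'⟩ := H K hKD (fun l => Sum.elim (lam l) fun j q => if l = 0 then q.elim (w j) fun _ => 0 else 0)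
    refine ⟨E, fun l m => hE.1 l m, hE.2, fun m hm => ?_⟩
    obtain ⟨h1, h2⟩ := hE' m hm
    exact good_of 0 F K w hrep h0 h1 h2

end proofs

open Classical in
/-- **(1)** Let `F_1, …, F_p` be arbitrary families over the number field `L`, and let `δ`, `D` and a finite set `κ` be given.
There are `r > 0`, `c > 0`, `M`, `C` such that for all number fields `K` of degree at most `D` and all constants `w` indexed
by `κ` there are thin sets `E_l(m)` which depend only on the `m_i` with `i > l` such that all `m` with `m_l ∉ E_l(m)` for all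
`l` are good relative to `w`; so few elements of product sets are exceptional. **(2)** The same for infinitely many arbitrary
families over arbitrary number fields, relative to all the periods of the fibres chosen before and arbitrary constants. -/
theorem result :
    (∀ (L : Type) [Field L] [NumberField L] [Algebra L ℂ] (p : ℕ) (F : Fin p → Family L) (κ : Type) [Fintype κ]
      (δ D : ℕ), ∃ r : ℝ, 0 < r ∧ ∃ c : ℝ, 0 < c ∧ ∃ (M : ℕ) (C : ℝ),
        ∀ (K : Type) [Field K] [NumberField K] [Algebra K ℂ], Module.finrank ℚ K ≤ D → ∀ w : κ → ℂ,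
          (∃ E : Fin p → (Fin p → ℕ) → Set ℕ, (∀ l m, Thin c M (E l m)) ∧
            (∀ l m m', (∀ i, l < i → m i = m' i) → E l m = E l m') ∧
            ∀ m, (∀ l, m l ∉ E l m) → GoodWith K F w r δ m) ∧
          (∀ (S : Fin p → Finset ℕ) (q : Fin p → ℕ), (∀ l, Covered c (q l) (S l)) →
            (((Fintype.piFinset S).filter fun m => ¬ GoodWith K F w r δ m).card : ℝ) ≤
              M * ∑ l, q l * ∏ i ∈ Finset.univ.erase l, ((S i).card : ℝ)) ∧
          ∀ (T : ℕ) (S : Fin p → Finset ℕ), 1 ≤ T → (∀ l, S l ⊆ Finset.Icc 1 T) →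
            (((Fintype.piFinset S).filter fun m => ¬ GoodWith K F w r δ m).card : ℝ) ≤
              C * (T : ℝ) ^ (1 - c) * ∑ l, ∏ i ∈ Finset.univ.erase l, ((S i).card : ℝ)) ∧
    ∀ (L : ℕ → Type) [∀ j, Field (L j)] [∀ j, NumberField (L j)] [∀ j, Algebra (L j) ℂ] (F : ∀ j, Family (L j))
      (δ D q : ℕ → ℕ), ∃ (r c : ℕ → ℝ) (M : ℕ → ℕ), (∀ j, 0 < r j ∧ 0 < c j) ∧
        ∀ (K : ℕ → Type) [∀ j, Field (K j)] [∀ j, NumberField (K j)] [∀ j, Algebra (K j) ℂ],
          (∀ j, Module.finrank ℚ (K j) ≤ D j) → ∀ w : ℕ → ℂ, ∃ E : ℕ → (ℕ → ℕ) → Set ℕ,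
            (∀ j m, Thin (c j) (M j) (E j m)) ∧ (∀ j m m', (∀ i < j, m i = m' i) → E j m = E j m') ∧
            ∀ m j, m j ∉ E j m →
              GoodWith (K j) (fun _ : Fin 1 => F j) (previous F w m j (q j)) (r j) (δ j) fun _ => m j := by
  constructor
  · intro L _ _ _ p F κ _ δ D
    obtain ⟨r, hr, c, hc, M, H⟩ := seq_all F κ δ D
    obtain ⟨c', hc', C, hC, hcount⟩ := Pool.Agent.L5helper14.SW.thin_count hc M
    refine ⟨r, hr, min c c', lt_min hc hc', M, C, ?_⟩
    intro K _ _ _ hKD w
    obtain ⟨E, hE, hE', hgood⟩ := H K hKD w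
    have hsub : ∀ S : Fin p → Finset ℕ, ((Fintype.piFinset S).filter fun m => ¬ GoodWith K F w r δ m) ⊆
        (Fintype.piFinset S).filter fun m => ∃ l, m l ∈ E l m := by
      intro S m hm
      obtain ⟨h1, h2⟩ := Finset.mem_filter.1 hm
      refine Finset.mem_filter.2 ⟨h1, ?_⟩
      by_contra h3
      push Not at h3
      exact h2 (hgood m h3)
    refine ⟨⟨E, fun l m => Pool.Agent.L5helper14.SW.Thin.mono (min_le_left _ _) le_rfl (hE l m), hE', hgood⟩,
      fun S q hS => ?_, fun T S hT hS => ?_⟩
    · refine le_trans (Nat.cast_le.2 (Finset.card_le_card (hsub S))) ?_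
      refine (Pool.Agent.L5helper14.SW.count_prod E hE' S (M := fun l => M * q l) fun l m => ?_).trans ?_
      · have h1 := Pool.Agent.L5helper14.SW.cov_count
          (Pool.Agent.L5helper14.SW.Thin.mono (min_le_left c c') le_rfl (hE l m)) (hS l)
        exact_mod_cast h1
      · rw [Finset.mul_sum]
        exact Finset.sum_le_sum fun l _ => by rw [mul_assoc]
    · refine le_trans (Nat.cast_le.2 (Finset.card_le_card (hsub S))) ?_
      have hT1 : (1 : ℝ) ≤ T := by exact_mod_cast hT
      refine (Pool.Agent.L5helper14.SW.count_prod E hE' S (M := fun _ => C * (T : ℝ) ^ (1 - min c c'))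
        fun l m => ?_).trans ?_
      · refine le_trans (Nat.cast_le.2 (Finset.card_le_card (Finset.filter_subset_filter _ (hS l)))) ?_
        refine (hcount _ (hE l m) T hT).trans ?_
        refine mul_le_mul_of_nonneg_left ?_ hC
        exact Real.rpow_le_rpow_of_exponent_le hT1 (by linarith [min_le_right c c'])
      · rw [Finset.mul_sum]
  · intro L _ _ _ F δ D q
    have H := fun j : ℕ => seq_all (p := 1) (fun _ => F j)
      ((Σ i : Fin j, Fin (F i).σ × Fin (F i).n) ⊕ Fin (q j)) (δ j) (D j)
    choose r hr c hc M H using H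
    refine ⟨r, c, M, fun j => ⟨hr j, hc j⟩, ?_⟩
    intro K _ _ _ hKD w
    have H' := fun (j : ℕ) (x : (Σ i : Fin j, Fin (F i).σ × Fin (F i).n) ⊕ Fin (q j) → ℂ) => H j (K j) (hKD j) x
    choose E hE hE' hgood using H'
    refine ⟨fun j m => E j (previous F w m j (q j)) 0 (fun _ => 0), fun j m => hE j _ 0 _, fun j m m' hmm => ?_,
      fun m j hm => hgood j (previous F w m j (q j)) (fun _ => m j) fun l => ?_⟩
    · have h1 : previous F w m j (q j) = previous F w m' j (q j) := by
        funext v
        rcases v with v | v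
        · show (F v.1).periods (1 / (m v.1 : ℂ)) v.2 = (F v.1).periods (1 / (m' v.1 : ℂ)) v.2
          rw [hmm v.1 v.1.2]
        · rfl
      show E j (previous F w m j (q j)) 0 (fun _ => 0) = E j (previous F w m' j (q j)) 0 (fun _ => 0)
      rw [h1]
    · have h1 : l = 0 := Subsingleton.elim _ _
      rw [h1, hE' j (previous F w m j (q j)) 0 (fun _ => m j) (fun _ => 0) fun i hi =>
        absurd hi (by rw [Subsingleton.elim i 0]; exact lt_irrefl _)]
      exact hm

end Pool.Agent.Results.MP_290158_ag.SequentialWindows
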